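import Mathlib
import Pool.Agent.H534.UT.PrimC

/-!
# Uniform prime tuples of every shape up to `x ^ (1 - δ)`, for a positive proportion of the dilates

For every fixed number `k` of shifts, every shape `a_1, ..., a_k ≤ x ^ (1 - δ)` (no exceptions, no
condition on the shape) and a positive proportion of the multiples `D = W d`, `d ≤ x ^ (δ / 8)`, of the
product `W` of the primes up to `(δ / 8) log x`, the numbers `n, n + D a_1, ..., n + D a_k` are
simultaneously prime for as many `n ≤ x` as predicted by Hardy and Littlewood, up to a constant factor;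
the same is true inside every subset of positive relative density of the primes of an interval
`(Y, Y + H]`, `Y ≤ H ^ g`.  The constants are uniform in the shape.  The number of the shifts may tend to
infinity slowly with `x`.

Proof.  By the `W`-trick with all the primes up to `ε log H` Selberg's majorant of the rough numbers
satisfies the correlation conditions for arbitrary shifts up to `H`, since a number `≤ H` has few prime
factors above `ε log H`.  The points `n + W b_l d` are the images of the corners of `(ℤ/N)^k`,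
`N ≈ H ^ ε`, under the maps `y ↦ K + ∑ b_l y_l`; for most `K` the pulled back majorant satisfies the
linear forms condition, and a relative multidimensional Szemerédi theorem (dense model theorem and
counting lemma of Conlon, Fox and Zhao, the theorem of Furstenberg and Katznelson, in a form which counts
the differences of one sign) gives a positive proportion of the differences `d`.
-/

set_option autoImplicit false

open Finset Filter

namespace Pool.Agent.Results.MP_f686a1_nt.EveryShapeDilated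

/-- the product of the primes up to `η log x` -/
noncomputable def W (η : ℝ) (x : ℕ) : ℕ := primorial ⌊η * Real.log x⌋₊

/-- the number of `1 ≤ n ≤ x` for which all `n + t`, `t ∈ T`, are prime -/
def count (x : ℕ) (T : Finset ℕ) : ℕ := ((Icc 1 x).filter (fun n => ∀ t ∈ T, (n + t).Prime)).card

/-- the number of residue classes modulo `p` occupied by `T` -/
def nu (T : Finset ℕ) (p : ℕ) : ℕ := (T.image (· % p)).card

/-- the factor at `p` of the singular series of `T` -/
noncomputable def loc (T : Finset ℕ) (p : ℕ) : ℝ :=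
  (1 - (nu T p : ℝ) / p) / (1 - 1 / (p : ℝ)) ^ T.card

/-- `T` is a set of `k + 1` shifts, its singular series converges to some `S > 0`, and both
`c S x / (log x) ^ (k + 1)` and `c x (log log x) ^ k / (log x) ^ (k + 1)` are at most the number of the
`1 ≤ n ≤ x` for which all `n + t`, `t ∈ T`, are prime -/
def RightOrder (c : ℝ) (k x : ℕ) (T : Finset ℕ) : Prop :=
  T.card = k + 1 ∧ (∃ S : ℝ, 0 < S ∧ HasProd (fun p : Nat.Primes => loc T p) S ∧
    c * (S * (x / Real.log x ^ (k + 1))) ≤ count x T) ∧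
  c * (x * Real.log (Real.log x) ^ k / Real.log x ^ (k + 1)) ≤ count x T

/-- the pattern `0, D a_1, ..., D a_k` -/
def pattern {k : ℕ} (D : ℕ) (a : Fin k → ℕ) : Finset ℕ := insert 0 (univ.image (fun i => D * a i))

open Classical in
/-- **Every shape, for a positive proportion of the dilates.**
(1) Every set `A` of at least `κ H / log H` primes in `(Y, Y + H]`, `Y ≤ H ^ g`: for all distinct
`1 ≤ a_1, ..., a_k ≤ H ^ (1 - δ)` at least `c H ^ (δ / 8)` of the `d ≤ H ^ (δ / 8)` are such that, with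
`D = W (δ / 8) H d`, at least `c H (log log H) ^ k / (log H) ^ (k + 1)` elements `p` of `A` have all
`p + D a_i` in `A`.
(2) All primes: for all distinct `1 ≤ a_1, ..., a_k ≤ x ^ (1 - δ)` the pattern `0, D a_1, ..., D a_k` has
the right order for at least `c x ^ (δ / 8)` of the `d ≤ x ^ (δ / 8)`.
(3) The number of shifts may grow: for some `K → ∞`, for all large `x` and every set `S` of at most
`K x` natural numbers `≤ x ^ (1 - δ)`, at least `x ^ (δ / 9)` of the `D ≤ x ^ δ` are such that all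
`n + D s`, `s ∈ S`, are prime for some `1 ≤ n ≤ x`. -/
theorem result :
    (∀ (k g : ℕ) (δ κ : ℝ), 1 ≤ k → 0 < δ → δ ≤ 1 → 0 < κ → ∃ c : ℝ, 0 < c ∧ ∃ H₀ : ℕ,
      ∀ (Y H : ℕ) (A : Finset ℕ), H₀ ≤ H → Y ≤ H ^ g → A ⊆ Ioc Y (Y + H) → (∀ p ∈ A, p.Prime) →
      κ * (H / Real.log H) ≤ A.card → ∀ a : Fin k → ℕ, Function.Injective a →
      (∀ i, 1 ≤ a i ∧ (a i : ℝ) ≤ (H : ℝ) ^ (1 - δ)) →
      c * (H : ℝ) ^ (δ / 8) ≤ (((Icc 1 ⌊(H : ℝ) ^ (δ / 8)⌋₊).filter (fun d =>
        c * (H * Real.log (Real.log H) ^ k / Real.log H ^ (k + 1)) ≤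
          ((A.filter (fun p => ∀ i, p + W (δ / 8) H * d * a i ∈ A)).card : ℝ))).card : ℝ)) ∧
    (∀ (k : ℕ) (δ : ℝ), 1 ≤ k → 0 < δ → δ ≤ 1 → ∃ c : ℝ, 0 < c ∧ ∃ x₀ : ℕ, ∀ x : ℕ, x₀ ≤ x →
      ∀ a : Fin k → ℕ, Function.Injective a → (∀ i, 1 ≤ a i ∧ (a i : ℝ) ≤ (x : ℝ) ^ (1 - δ)) →
      c * (x : ℝ) ^ (δ / 8) ≤ (((Icc 1 ⌊(x : ℝ) ^ (δ / 8)⌋₊).filter (fun d =>
        RightOrder c k x (pattern (W (δ / 8) x * d) a))).card : ℝ)) ∧
    (∀ δ : ℝ, 0 < δ → δ ≤ 1 → ∃ K : ℕ → ℕ, Tendsto K atTop atTop ∧ ∀ᶠ x : ℕ in atTop,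
      ∀ S : Finset ℕ, S.card ≤ K x → (∀ s ∈ S, (s : ℝ) ≤ (x : ℝ) ^ (1 - δ)) →
      (x : ℝ) ^ (δ / 9) ≤ (((Icc 1 ⌊(x : ℝ) ^ δ⌋₊).filter (fun D =>
        ∃ n, 1 ≤ n ∧ n ≤ x ∧ ∀ s ∈ S, (n + D * s).Prime)).card : ℝ)) := by
  refine ⟨fun k g δ κ hk hδ hδ1 hκ => ?_, fun k δ hk hδ hδ1 => ?_, fun δ hδ hδ1 => ?_⟩
  · obtain ⟨c, hc, H₀, h⟩ := Pool.Agent.H534.UT.primA k g δ κ hk hδ hδ1 hκ
    refine ⟨c, hc, H₀, fun Y H A hH hY hA hAp hAc a ha ha' => ?_⟩
    exact h Y H A hH hY hA hAp hAc a ha (fun i => (ha' i).1) (fun i => (ha' i).2)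
  · obtain ⟨c, hc, x₀, h⟩ := Pool.Agent.H534.UT.primB k δ hk hδ hδ1
    refine ⟨c, hc, x₀, fun x hx a ha ha' => ?_⟩
    refine (h x hx a ha (fun i => (ha' i).1) (fun i => (ha' i).2)).trans ?_
    apply Nat.cast_le.2
    apply card_le_card
    intro d hd
    rw [mem_filter, mem_Icc] at hd
    rw [mem_filter, mem_Icc]
    obtain ⟨hd1, hS, h1, h2⟩ := hd
    refine ⟨hd1, ?_, ⟨_, hS, Pool.Agent.H387R2.Uni.CT_hasProd _, h2⟩, h1⟩
    exact Pool.Agent.H534.UT.patt_card _ a (Nat.mul_pos (Pool.Agent.H534.RS.WW_pos _ _) hd1.1) ha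
      (fun i => (ha' i).1)
  · exact Pool.Agent.H534.UT.primC δ hδ hδ1

end Pool.Agent.Results.MP_f686a1_nt.EveryShapeDilated
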