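import Mathlib
import Pool.Agent.H528.TupE

set_option autoImplicit false

/-!
# Prime tuples with shifts from arbitrary sparse sets: the conjectured number for a positive proportion

For every `k ≥ 2`, `0 ≤ c < 1` and `η > 0` there is a `δ < 1` such that for EVERY set `A` of at least `N ^ δ` shifts in
`[1, N]` the `k`-element subsets `H` of `A` with at least `c 𝔖(H) N / (log N) ^ k` translates `n + H`, `n ≤ N`, which
consist of primes have at least the proportion `(1 - c) / (2 ^ (k - 1) - c) - η` of all `k`-element subsets of `A`, if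
every `H` is weighted with its conjectured density `𝔖(H)`. Thus for `c → 0` this proportion is `2 ^ {-(k - 1)}`, one half
for pairs.

On average the conjecture is correct as a lower bound for all sets `A` of at least `(log N) ^ (k + 1)` shifts.
-/

namespace Pool.Agent.Results.MP_f686a1_nt.ProportionInSparseSets

open Finset Filter
open Pool.Agent.H387R2.Uni

/-- the number of the `1 ≤ n ≤ N` such that all the numbers `n + h`, `h ∈ H`, are prime -/
def primeCount (H : Finset ℕ) (N : ℕ) : ℕ := ((Icc 1 N).filter (fun n => ∀ h ∈ H, (n + h).Prime)).card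

open Pool.Agent.Y822 Pool.Agent.H528.Tup Pool.Agent.H528.UpLo

lemma primeCount_eq (H : Finset ℕ) (N : ℕ) : primeCount H N = cP N H := by
  classical
  unfold primeCount cP
  congr 1

open Classical in
theorem result :
    -- the conjectured constants are convergent products, positive for admissible sets
    (∀ H : Finset ℕ, HasProd (fun p : Nat.Primes => locT H p) (CT H) ∧ (Adm H → 0 < CT H)) ∧
    -- the conjecture holds on average as a lower bound for every set of at least `(log N) ^ (k + 1)` shifts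
    (∀ k : ℕ, 1 ≤ k → ∀ ε : ℝ, 0 < ε → ∃ N₀ : ℕ, ∀ N : ℕ, N₀ ≤ N → ∀ A : Finset ℕ, (∀ a ∈ A, a ≤ N) →
      Real.log N ^ (k + 1) ≤ A.card →
        (1 - ε) * (N / Real.log N ^ k * ∑ H ∈ A.powersetCard k, CT H) ≤ ∑ H ∈ A.powersetCard k, (primeCount H N : ℝ)) ∧
    -- the proportion of the sets with the conjectured number of prime translates
    ∀ k : ℕ, 2 ≤ k → ∀ η : ℝ, 0 < η → ∀ c : ℝ, 0 ≤ c → c < 1 → ∃ δ : ℝ, 0 < δ ∧ δ < 1 ∧
      ∃ N₀ : ℕ, ∀ N : ℕ, N₀ ≤ N → ∀ A : Finset ℕ, (∀ a ∈ A, 1 ≤ a ∧ a ≤ N) → (N : ℝ) ^ δ ≤ A.card →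
        ((1 - c) / (2 ^ (k - 1) - c) - η) * ∑ H ∈ A.powersetCard k, CT H ≤
          ∑ H ∈ (A.powersetCard k).filter (fun H => c * (CT H * (N / Real.log N ^ k)) ≤ primeCount H N), CT H := by
  refine ⟨fun H => ⟨CT_hasProd _, fun hA => ?_⟩, fun k hk ε hε => ?_, fun k hk η hη c hc0 hc1 => ?_⟩
  · rw [← CT_en]
    apply Pool.Agent.H386R2.HL.singularSeries_pos (en_inj _)
    intro p hp
    rw [nu_en]
    exact hA p hp
  · obtain ⟨k, rfl⟩ : ∃ j, k = j + 1 := ⟨k - 1, by omega⟩
    obtain ⟨N₀, hN₀⟩ := eventually_atTop.1 (tup_avg k ε hε)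
    refine ⟨N₀, fun N hN A hA hAc => ?_⟩
    have h1 := hN₀ N hN A hA hAc
    simp only [primeCount_eq]
    exact h1
  · obtain ⟨k, rfl⟩ : ∃ j, k = j + 2 := ⟨k - 2, by omega⟩
    obtain ⟨δ, hδ0, hδ1, h⟩ := tup_fin k η c hη hc0 hc1
    obtain ⟨N₀, hN₀⟩ := eventually_atTop.1 h
    refine ⟨δ, hδ0, hδ1, N₀, fun N hN A hA hAc => ?_⟩
    have h1 := hN₀ N hN A hA hAc
    simp only [primeCount_eq]
    exact h1

end Pool.Agent.Results.MP_f686a1_nt.ProportionInSparseSets
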