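import Pool.Agent.H579.R.TupMR
import Pool.Agent.H579.R.Reg

/-!
# Prime `k`-tuples with almost all shifts in arbitrary residue classes of the moduli up to `x ^ (4 / 5 - ρ)`

Let `k ≥ 1`. The uniform prime `k`-tuples conjecture asks for an `n ≤ x` with `n + h₁, ..., n + h_k` prime for EVERY
admissible tuple of shifts `h_i ≤ x ^ (1 - δ)`. We prove the lower bound of the right order for almost all tuples of
shifts, where the shifts are restricted to prescribed residue classes of large moduli: there is a set `D` of at most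
`(log x) ^ c` integers, the RADICALS of which are larger than any given power of `log x`, such that for all moduli
`q₁, ..., q_k ≤ x ^ (4 / 5 - ρ)` which are not divisible by a member of `D` (in particular for ALL moduli with a radical
at most a power of `log x`, for instance `q_i = 10 ^ m`: prescribed last digits) and ALL residue classes `a_i` modulo `q_i`,
all but at most `∏ (x / q_i) / (log x) ^ A` of the tuples `(h₁, ..., h_k)` of distinct integers `0 ≤ h_i ≤ x`,
`h_i ≡ a_i (mod q_i)`, satisfy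

  `#{n ≤ x : n + h₁, ..., n + h_k are primes} ≥ 8 ^ (-k) S(h) x / (log x) ^ k`,

`S(h)` the singular series of Hardy and Littlewood. So the shifts may lie in very thin sets, for instance in the set of
the multiples `q m`, `m ≤ x ^ (1 / 5 + ρ)`, of one large integer `q`: almost all patterns with these distances occur.

More generally `n` can be restricted to an ARBITRARY set `S` of positive integers up to `x`: then, with
`z = ⌈(log x) ^ E⌉`, for all but at most `∏ (x / q_i) / (log x) ^ A` tuples, `|h_i| ≤ x`, the number of the `n ∈ S` with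
`n + h₁, ..., n + h_k` prime is at least

  `8 ^ (-k) #{n ∈ S : n + h₁, ..., n + h_k have no prime factor ≤ z} / (log x ∏_{p ≤ z} (1 - 1 / p)) ^ k - x / (log x) ^ A`.

Proof. For one shift and an arbitrary set `S` this is the estimate of `D/MainF` (one function, a minorant of the
function of von Mangoldt, is replaced by its sieve model; its sums over the characters modulo `q` are small in square
mean, on the minor arcs and, if `q` is not divisible by one of few bad conductors, on the major arcs too; a conductor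
with a small radical is not bad by Postnikov's formula and Vinogradov's method, `H567/PP`). We apply it
`k` times, to the sets of the `n ∈ S` for which some of the `n + h_i` are prime and the others have no small prime
factor (`G/Multi`). For `S = [1, x]` there remains a sieve problem with very small primes (`G/Rough`), and the tail of
the singular series (`G/Sing`).
-/

set_option autoImplicit false

namespace Pool.Agent.Results.MP_f686a1_nt.TuplesInSparseClasses

/-- the radical of `d`: the product of the primes dividing `d` -/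
def rad (d : ℕ) : ℕ := ∏ p ∈ d.primeFactors, p

/-- the product of `1 - 1 / p` over the primes `p ≤ z` -/
noncomputable def mertens (z : ℕ) : ℝ := ∏ p ∈ (Finset.Icc 1 z).filter Nat.Prime, (1 - 1 / (p : ℝ))

/-- the number of the `n ∈ S` for which all `n + h i` are primes -/
noncomputable def primeTuples {k : ℕ} (S : Set ℕ) (h : Fin k → ℤ) : ℕ :=
  Set.ncard {n : ℕ | n ∈ S ∧ ∀ i, ∃ p : ℕ, p.Prime ∧ (n : ℤ) + h i = p}

/-- the number of the `n ∈ S` for which all `n + h i` are positive and have no prime factor up to `z` -/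
noncomputable def roughTuples {k : ℕ} (z : ℕ) (S : Set ℕ) (h : Fin k → ℤ) : ℕ :=
  Set.ncard {n : ℕ | n ∈ S ∧ ∀ i, 0 < (n : ℤ) + h i ∧ ∀ p : ℕ, p.Prime → p ≤ z → ¬ (p : ℤ) ∣ n + h i}

/-- the number of the residue classes `m` modulo `p` for which one of the `m + h i` is divisible by `p` -/
noncomputable def classes {k : ℕ} (h : Fin k → ℤ) (p : ℕ) : ℕ :=
  Set.ncard {m : ℕ | m < p ∧ ∃ i, (p : ℤ) ∣ m + h i}

/-- the singular series of Hardy and Littlewood of the tuple `h` -/
noncomputable def singular {k : ℕ} (h : Fin k → ℤ) : ℝ :=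
  ∏' p : Nat.Primes, (1 - (classes h p : ℝ) / (p : ℕ)) / (1 - 1 / ((p : ℕ) : ℝ)) ^ k

theorem singular_eq {k : ℕ} (h : Fin k → ℤ) : Pool.Agent.H579.G.sing (fun _ => 1) h = singular h := by
  classical
  unfold Pool.Agent.H579.G.sing singular
  congr 1
  funext p
  unfold Pool.Agent.H579.G.fac
  have e : Pool.Agent.H373R2.T7.nuB (Pool.Agent.H579.G.Qf (fun _ => 1) h) p = classes h p := by
    unfold Pool.Agent.H373R2.T7.nuB classes
    rw [← Set.ncard_coe_finset]
    congr 1
    ext m
    rw [Finset.mem_coe, Finset.mem_filter, Finset.mem_range, Set.mem_ofPred_eq]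
    unfold Pool.Agent.H579.G.Qf
    simp only [one_mul]
  rw [e]

/-- **Prime `k`-tuples with shifts in residue classes.** For all `k ≥ 1`, `ρ > 0` and `A` there is `c` such that for all
`B` there is `E₀` such that for all `E ≥ E₀` and all sufficiently large `x`, with `z = ⌈(log x) ^ E⌉`: there is a set
`D` of at most `(log x) ^ c` integers, all of them with a radical larger than `(log x) ^ B`, such that for all moduli
`1 ≤ q_i ≤ x ^ (4 / 5 - ρ)` which have a radical `≤ (log x) ^ B` or are not divisible by a member of `D` and ALL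
integers `a_i`, `i = 1, ..., k`,
(1) all but at most `(∏ x / q_i) / (log x) ^ A` of the tuples `h` of distinct integers `0 ≤ h_i ≤ x`,
`h_i ≡ a_i (mod q_i)`, satisfy `#{n ≤ x : all n + h_i prime} ≥ (1 / 8) ^ k singular(h) x / (log x) ^ k`;
(2) for EVERY set `S` of positive integers up to `x`, all but at most `(∏ x / q_i) / (log x) ^ A` of the tuples `h` of
integers `|h_i| ≤ x`, `h_i ≡ a_i (mod q_i)`, satisfy
`primeTuples S h ≥ (1 / 8) ^ k (roughTuples z S h / (mertens z log x) ^ k) - x / (log x) ^ A`. -/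
theorem result (k : ℕ) (hk : 1 ≤ k) (ρ : ℝ) (hρ : 0 < ρ) (A : ℕ) :
    ∃ c : ℕ, ∀ B : ℕ, ∃ E₀ : ℕ, ∀ E : ℕ, E₀ ≤ E → ∃ x₀ : ℕ, ∀ x : ℕ, x₀ ≤ x →
      ∃ D : Finset ℕ, (D.card : ℝ) ≤ Real.log x ^ c ∧ (∀ d ∈ D, Real.log x ^ B < (rad d : ℝ)) ∧
      ∀ q : Fin k → ℕ, (∀ i, 1 ≤ q i ∧ (q i : ℝ) ≤ (x : ℝ) ^ (4 / 5 - ρ) ∧
        ((rad (q i) : ℝ) ≤ Real.log x ^ B ∨ ∀ d ∈ D, ¬ d ∣ q i)) → ∀ a : Fin k → ℤ,
        ({h : Fin k → ℤ | Function.Injective h ∧ (∀ i, 0 ≤ h i ∧ h i ≤ x ∧ h i ≡ a i [ZMOD q i]) ∧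
          (primeTuples (Set.Icc 1 x) h : ℝ) < (1 / 8) ^ k * singular h * (x / Real.log x ^ k)}.ncard : ℝ) ≤
            (∏ i, ((x : ℝ) / q i)) / Real.log x ^ A ∧
        ∀ S : Set ℕ, S ⊆ Set.Icc 1 x →
          ({h : Fin k → ℤ | (∀ i, |h i| ≤ x ∧ h i ≡ a i [ZMOD q i]) ∧ (primeTuples S h : ℝ) <
            (1 / 8) ^ k * (roughTuples ⌈Real.log x ^ E⌉₊ S h / (mertens ⌈Real.log x ^ E⌉₊ * Real.log x) ^ k) -
              x / Real.log x ^ A}.ncard : ℝ) ≤ (∏ i, ((x : ℝ) / q i)) / Real.log x ^ A := by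
  classical
  obtain ⟨c, h1⟩ := Pool.Agent.H579.R.tupMainR k hk ρ hρ A
  refine ⟨c, fun B => ?_⟩
  obtain ⟨E₀, h2⟩ := h1 B
  refine ⟨E₀, fun E hE => ?_⟩
  obtain ⟨x₀, h3⟩ := h2 E hE
  refine ⟨x₀, fun x hx => ?_⟩
  obtain ⟨D, hD1, hD2, h4⟩ := h3 x hx
  refine ⟨D, hD1, hD2, fun q hq a => ?_⟩
  obtain ⟨h5, h6⟩ := h4 q (fun i => ⟨(hq i).1, (hq i).2.1, Pool.Agent.H579.R.reg_of_rad (hq i).1 hD2 (hq i).2.2⟩) a
  have hfinall : ∀ T : Set (Fin k → ℤ), (∀ h ∈ T, ∀ i, |h i| ≤ x) → T.Finite := by
    intro T hT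
    refine Set.Finite.subset (Fintype.piFinset (fun _ : Fin k => Finset.Icc (-(x : ℤ)) x)).finite_toSet ?_
    intro h hh
    rw [Finset.mem_coe, Fintype.mem_piFinset]
    intro i
    have := hT h hh i
    rw [abs_le] at this
    exact Finset.mem_Icc.2 this
  refine ⟨?_, fun S hS => ?_⟩
  · obtain ⟨T, hT⟩ : ∃ T : Set (Fin k → ℤ), T = {h : Fin k → ℤ | Function.Injective h ∧
      (∀ i, 0 ≤ h i ∧ h i ≤ x ∧ h i ≡ a i [ZMOD q i]) ∧
      (primeTuples (Set.Icc 1 x) h : ℝ) < (1 / 8) ^ k * singular h * (x / Real.log x ^ k)} := ⟨_, rfl⟩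
    rw [← hT]
    have hfin : T.Finite := by
      refine hfinall T fun h hh i => ?_
      rw [hT] at hh
      obtain ⟨e1, e2, -⟩ := hh.2.1 i
      rw [abs_of_nonneg e1]
      exact e2
    rw [Set.ncard_eq_toFinset_card T hfin]
    refine h5 hfin.toFinset (fun h hh => ?_) (fun h hh => ?_)
    · have e1 := hfin.mem_toFinset.1 hh
      rw [hT] at e1
      exact ⟨e1.1, e1.2.1⟩
    · have e1 := hfin.mem_toFinset.1 hh
      rw [hT] at e1
      rw [singular_eq]
      refine lt_of_eq_of_lt ?_ e1.2.2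
      rw [Nat.cast_inj]
      unfold primeTuples
      congr 1
      ext n
      rw [Set.mem_inter_iff, Finset.mem_coe, Finset.mem_Icc, Set.mem_ofPred_eq, Set.mem_ofPred_eq, Set.mem_Icc]
      rfl
  · have hSfin : S.Finite := (Set.finite_Icc 1 x).subset hS
    have hSf : ((hSfin.toFinset : Finset ℕ) : Set ℕ) = S := hSfin.coe_toFinset
    have hSs : hSfin.toFinset ⊆ Finset.Icc 1 x := by
      intro s hs
      exact Finset.mem_Icc.2 (hS (hSfin.mem_toFinset.1 hs))
    obtain ⟨T, hT⟩ : ∃ T : Set (Fin k → ℤ), T = {h : Fin k → ℤ | (∀ i, |h i| ≤ x ∧ h i ≡ a i [ZMOD q i]) ∧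
      (primeTuples S h : ℝ) <
        (1 / 8) ^ k * (roughTuples ⌈Real.log x ^ E⌉₊ S h / (mertens ⌈Real.log x ^ E⌉₊ * Real.log x) ^ k) -
          x / Real.log x ^ A} := ⟨_, rfl⟩
    rw [← hT]
    have hfin : T.Finite := by
      refine hfinall T fun h hh i => ?_
      rw [hT] at hh
      exact (hh.1 i).1
    rw [Set.ncard_eq_toFinset_card T hfin]
    refine h6 hSfin.toFinset hSs hfin.toFinset (fun h hh => ?_) (fun h hh => ?_)
    · have e1 := hfin.mem_toFinset.1 hh
      rw [hT] at e1
      exact e1.1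
    · have e1 := hfin.mem_toFinset.1 hh
      rw [hT] at e1
      rw [hSf]
      exact e1.2

end Pool.Agent.Results.MP_f686a1_nt.TuplesInSparseClasses
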