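import Mathlib
import Pool.Agent.H532.UT.Q1
import Pool.Agent.H532.RM.Thr

/-!
# Uniform k-tuples with shifts up to `x` in the random sieve model

In the model of Banks, Ford and Tao (Large prime gaps and probabilistic models, Invent. Math. 2023)
the primes are replaced by the random set `R` of the integers `n` which are outside the random
residue class `a_p` modulo `p` for all primes `p ≤ z(n)`, `∏_{p ≤ z(n)} (1 - 1/p) ≈ 1 / log n`.

We prove, almost surely, the analogue of Q1 for `R`, in a much stronger form: the Hardy-Littlewood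
asymptotic formula holds simultaneously for all sets `H` of at most `c log x / log log x` shifts
up to `x` and in all intervals `(x, x + y]`, `x ^ ε ≤ y ≤ x`. The order `log x / log log x` of the
number of shifts is optimal: there are admissible sets of at most `(1 + ε) log x / log log x`
shifts up to `x ^ (2/3)` which have no translate in `R` by an integer `n ≤ x`.
-/

open Finset MeasureTheory ProbabilityTheory Filter
open scoped ENNReal Topology

namespace Pool.Agent.Results.MP_f686a1_nt.UniformTuplesRandomSieve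

/-- `A p`, `p` prime, are independent random variables and `A p` is uniformly distributed on
`{0, …, p - 1}`. -/
structure RandomClasses {Ω : Type} [MeasurableSpace Ω] (μ : Measure Ω) (A : ℕ → Ω → ℕ) :
    Prop where
  meas : ∀ p, Measurable (A p)
  indep : iIndepFun (fun p : Nat.Primes => A p) μ
  unif : ∀ p : ℕ, p.Prime → ∀ r < p, μ {ω | A p ω = r} = (p : ℝ≥0∞)⁻¹

/-- `V z = ∏_{p ≤ z} (1 - 1 / p)`. -/
noncomputable def V (z : ℕ) : ℝ := ∏ p ∈ (range (z + 1)).filter Nat.Prime, (1 - 1 / (p : ℝ))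

/-- The integers `n` are sieved by the primes up to `z n`; this leaves the density
`1 / log n + O(1 / log² n)`. -/
structure SievingLimit (z : ℕ → ℕ) : Prop where
  mono : Monotone z
  rate : ∃ K : ℝ, ∀ᶠ n : ℕ in atTop, |V (z n) * Real.log n - 1| ≤ K / Real.log n

/-- The sieving limit of Banks, Ford and Tao: the largest `z` with `V z ≥ 1 / log n`. -/
noncomputable def banksFordTao (n : ℕ) : ℕ := sSup {z : ℕ | 1 / Real.log n ≤ V z}

/-- The random sieve: the integers `n` which are not congruent to `a p` modulo `p`, for all primes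
`p ≤ z n`. -/
def sieved (z : ℕ → ℕ) (a : ℕ → ℕ) : Set ℕ :=
  {n | ∀ p : ℕ, p.Prime → p ≤ z n → ¬ n ≡ a p [MOD p]}

/-- `H` is admissible: modulo every prime `p` some residue class contains no element of `H`. -/
def Admissible (H : Finset ℕ) : Prop := ∀ p : ℕ, p.Prime → ∃ c, ∀ i ∈ H, ¬ i ≡ c [MOD p]

/-- The number of integers `n`, `x < n ≤ x + y`, such that all `n + i`, `i ∈ H`, are in `R`. -/
noncomputable def tuples (R : Set ℕ) (H : Finset ℕ) (x y : ℕ) : ℕ :=
  {n : ℕ | x < n ∧ n ≤ x + y ∧ ∀ i ∈ H, n + i ∈ R}.ncard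

/-- `∏_{p ≤ z} (1 - ν_p / p) (1 - 1 / p)⁻ᵏ`, where `k` is the number of elements of `H` and `ν_p` is
the number of residue classes modulo `p` which they occupy. -/
noncomputable def partialSeries (H : Finset ℕ) (z : ℕ) : ℝ :=
  ∏ p ∈ (range (z + 1)).filter Nat.Prime,
    (1 - ((H.image (· % p)).card : ℝ) / p) / (1 - 1 / (p : ℝ)) ^ H.card

/-- The singular series. -/
noncomputable def singularSeries (H : Finset ℕ) : ℝ := limUnder atTop (partialSeries H)

/-- **Uniform k-tuples in the random sieve model.** -/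
theorem result :
    -- the model exists, the sieving limit of Banks, Ford and Tao is covered
    (∃ μ : Measure (ℕ → ℕ), IsProbabilityMeasure μ ∧ RandomClasses μ (fun p ω => ω p)) ∧
    SievingLimit banksFordTao ∧
    -- the singular series converges and it is positive for admissible sets
    (∀ H : Finset ℕ, Tendsto (partialSeries H) atTop (𝓝 (singularSeries H)) ∧
      (Admissible H → 0 < singularSeries H)) ∧
    -- the asymptotic formula for all sets of at most `c log x / log log x` shifts up to `x`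
    (∀ ε δ : ℝ, 0 < ε → 0 < δ → ∃ c : ℝ, 0 < c ∧ ∀ (Ω : Type) [MeasurableSpace Ω] (μ : Measure Ω)
      [IsProbabilityMeasure μ] (A : ℕ → Ω → ℕ), RandomClasses μ A → ∀ z : ℕ → ℕ,
      SievingLimit z → ∀ᵐ ω ∂μ, ∀ᶠ x : ℕ in atTop, ∀ H : Finset ℕ,
      (H.card : ℝ) ≤ c * Real.log x / Real.log (Real.log x) → (∀ i ∈ H, i ≤ x) →
      ∀ y : ℕ, (x : ℝ) ^ ε ≤ y → y ≤ x →
        |(tuples (sieved z (fun p => A p ω)) H x y : ℝ) -
          singularSeries H * y / Real.log x ^ H.card| ≤
            δ * (singularSeries H * y / Real.log x ^ H.card)) ∧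
    -- the analogue of Q1
    (∀ δ : ℝ, 0 < δ → ∀ (Ω : Type) [MeasurableSpace Ω] (μ : Measure Ω) [IsProbabilityMeasure μ]
      (A : ℕ → Ω → ℕ), RandomClasses μ A → ∀ z : ℕ → ℕ, SievingLimit z →
      ∀ᵐ ω ∂μ, ∀ᶠ x : ℕ in atTop, ∀ H : Finset ℕ, Admissible H →
        (H.card : ℝ) ≤ Real.log x ^ (1 - δ) → (∀ i ∈ H, (i : ℝ) ≤ (x : ℝ) ^ (1 - δ)) →
        ∃ n, 0 < n ∧ n ≤ x ∧ ∀ i ∈ H, n + i ∈ sieved z (fun p => A p ω)) ∧
    -- the order of the number of shifts is optimal
    (∀ ε : ℝ, 0 < ε → ∀ (Ω : Type) [MeasurableSpace Ω] (μ : Measure Ω) [IsProbabilityMeasure μ]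
      (A : ℕ → Ω → ℕ), RandomClasses μ A → ∀ z : ℕ → ℕ, SievingLimit z →
      ∀ᵐ ω ∂μ, ∀ᶠ x : ℕ in atTop, ∃ H : Finset ℕ, Admissible H ∧
        (H.card : ℝ) ≤ (1 + ε) * Real.log x / Real.log (Real.log x) ∧ (∀ i ∈ H, i ^ 3 ≤ x ^ 2) ∧
        ∀ n ≤ x, ¬ ∀ i ∈ H, n + i ∈ sieved z (fun p => A p ω)) := by
  have hR : ∀ {Ω : Type} [MeasurableSpace Ω] {μ : Measure Ω} {A : ℕ → Ω → ℕ},
      RandomClasses μ A → Pool.Agent.H532.RM.RandomClasses μ A := fun h =>
    ⟨h.meas, h.indep, h.unif⟩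
  have hZ : ∀ {z : ℕ → ℕ}, SievingLimit z → Pool.Agent.H532.UT.Rate z := fun h => ⟨h.mono, h.rate⟩
  refine ⟨?_, ⟨Pool.Agent.H532.UT.rate_zBFT.mono, Pool.Agent.H532.UT.rate_zBFT.rate⟩, ?_, ?_, ?_, ?_⟩
  · obtain ⟨μ, h1, h2⟩ := Pool.Agent.H532.RM.exists_randomClasses
    exact ⟨μ, h1, ⟨h2.meas, h2.indep, h2.unif⟩⟩
  · intro H
    exact ⟨Pool.Agent.H532.UT.SS_tendsto H, fun h => Pool.Agent.H532.UT.SS_pos H h⟩
  · intro ε δ hε hδ
    obtain ⟨c, hc, hcc⟩ := Pool.Agent.H532.UT.hl_unif ε (min δ 1) hε (lt_min hδ one_pos)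
      (min_le_right _ _)
    refine ⟨c, hc, fun Ω _ μ _ A hA z hz => ?_⟩
    filter_upwards [hcc z (hZ hz) (hR hA)] with ω hω
    filter_upwards [hω, eventually_ge_atTop 3] with x hx hx3 H hH hHx y hy1 hy2
    refine (hx H hH hHx y hy1 hy2).trans ?_
    have h1 := Pool.Agent.H532.UT.SS_nonneg H
    have h2 : (0 : ℝ) ≤ Real.log x := Real.log_natCast_nonneg x
    have h3 : 0 ≤ Pool.Agent.H532.UT.SS H * y / Real.log x ^ H.card := by positivity
    exact mul_le_mul_of_nonneg_right (min_le_left _ _) h3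
  · intro δ hδ Ω _ μ _ A hA z hz
    filter_upwards [Pool.Agent.H532.UT.q1 δ hδ z (hZ hz) (hR hA)] with ω hω
    filter_upwards [hω] with x hx H hadm hH hHx
    exact hx H hadm hH hHx
  · intro ε hε Ω _ μ _ A hA z hz
    filter_upwards [Pool.Agent.H532.UT.opt ε hε (hR hA) z (hZ hz).mono (hZ hz).lim] with ω hω
    filter_upwards [hω] with x hx
    obtain ⟨H, h1, h2, h3, h4⟩ := hx
    exact ⟨H, h1, h2, h3, h4⟩

end Pool.Agent.Results.MP_f686a1_nt.UniformTuplesRandomSieve
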